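import Pool.Agent.helper92.RC.Spec

/-!
# Row KEY (MP_cf13c7_al, Q2): the key lemma
-/

set_option autoImplicit false

namespace Pool.Agent.helper92.RC

open scoped commutatorElement

universe u

lemma KEY_comm {G : Type u} [Group G] (K L : Subgroup G) (h : ∀ x ∈ K, ∀ y ∈ L, y * x * y⁻¹ ∈ K)
    {b z : G} (hb : b ∈ K) (hz : z ∈ L) : ⁅b, z⁆ ∈ K := by
  have h1 : z * b⁻¹ * z⁻¹ ∈ K := h _ (K.inv_mem hb) _ hz
  have h2 : ⁅b, z⁆ = b * (z * b⁻¹ * z⁻¹) := by
    rw [commutatorElement_def]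
    group
  rw [h2]
  exact K.mul_mem hb h1

lemma KEY_mem {H : Type u} [Group H] (C : ℕ → Subgroup H) (hC : IsCh C) (d : ℕ) (g b z : ℕ → H)
    (hg : ∀ k, g k ∈ C d) (hb : ∀ k, b k ∈ C d) (ε : ℕ → Bool)
    (hz : ∀ k, z k = (if ε k then g k else 1) * ⁅b k, z (k + 1)⁆) :
    ∀ r, r ≤ d → ∀ k, z k ∈ C r := by
  intro r
  induction r with
  | zero =>
    intro _ k
    rw [hC.1]
    exact Subgroup.mem_top _
  | succ r ih =>
    intro hr k
    have h1 : C d ≤ C (r + 1) := antitone_nat_of_succ_le (fun k => (hC.2 k).1) hr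
    rw [hz k]
    refine (C (r + 1)).mul_mem ?_ ?_
    · split_ifs
      · exact h1 (hg k)
      · exact (C (r + 1)).one_mem
    · exact KEY_comm (C (r + 1)) (C r) (fun x hx y hy => (hC.2 r).2 x hx y hy) (h1 (hb k))
        (ih (by omega) (k + 1))

lemma KEY_deep {F : Type u} [Group F] (P : ℕ → Subgroup F)
    (hP : ∀ k, P (k + 1) ≤ P k ∧ ∀ x ∈ P (k + 1), ∀ y ∈ P k, y * x * y⁻¹ ∈ P (k + 1))
    (a β w : ℕ → F) (ha : ∀ k, a k ∈ P k) (hβ : ∀ k, β k ∈ P k) (ε : ℕ → Bool)
    (hw : ∀ k, w k = (if ε k then a k else 1) * ⁅β k, w (k + 1)⁆) (h0 : ∀ k, w k ∈ P 0) :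
    ∀ j k, j ≤ k → w k ∈ P j := by
  intro j
  induction j with
  | zero => exact fun k _ => h0 k
  | succ j ih =>
    intro k hk
    have h1 : P k ≤ P (j + 1) := antitone_nat_of_succ_le (fun k => (hP k).1) hk
    rw [hw k]
    refine (P (j + 1)).mul_mem ?_ ?_
    · split_ifs
      · exact h1 (ha k)
      · exact (P (j + 1)).one_mem
    · exact KEY_comm (P (j + 1)) (P j) (fun x hx y hy => (hP j).2 x hx y hy) (h1 (hβ k))
        (ih (k + 1) (by omega))

theorem KEY : KEY_stmt.{u} := by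
  intro F _ _ H _ C d hC f g b P hf hP hG hS
  have ha : ∀ k, f (g k) ∈ P k := fun k => by
    have h1 : ⁅P k, P k⁆ ≤ P k := Subgroup.commutator_le.2 (fun x hx y hy => by
      rw [commutatorElement_def]
      exact (P k).mul_mem ((P k).mul_mem ((P k).mul_mem hx hy) ((P k).inv_mem hx)) ((P k).inv_mem hy))
    exact h1 (hG k).2.1
  have hβ : ∀ k, f (b k) ∈ P k := fun k => (hG k).1
  -- the solutions in F
  have hsol : ∀ ε : ℕ → Bool, ∃ w : ℕ → F,
      (∀ k, w k = (if ε k then f (g k) else 1) * ⁅f (b k), w (k + 1)⁆) ∧ ∀ k, w k ∈ P 0 := by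
    intro ε
    obtain ⟨z, hz⟩ := hS ε
    have hm : ∀ k, z k ∈ C d := KEY_mem C hC d (fun k => (g k : H)) (fun k => (b k : H)) z
      (fun k => (g k).2) (fun k => (b k).2) ε hz d le_rfl
    refine ⟨fun k => f ⟨z k, hm k⟩, fun k => ?_, fun k => hf ⟨_, rfl⟩⟩
    have h1 : (⟨z k, hm k⟩ : C d) = (if ε k then g k else 1) * ⁅b k, ⟨z (k + 1), hm (k + 1)⟩⁆ := by
      apply Subtype.ext
      have h2 := hz k
      cases hε : ε k with
      | true =>
        rw [hε] at h2
        simpa [commutatorElement_def] using h2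
      | false =>
        rw [hε] at h2
        simpa [commutatorElement_def] using h2
    change f ⟨z k, hm k⟩ = _
    rw [h1, map_mul, map_commutatorElement]
    congr 1
    split_ifs
    · rfl
    · exact map_one f
  choose w hw hw0 using hsol
  have hdeep : ∀ ε : ℕ → Bool, ∀ j k, j ≤ k → w ε k ∈ P j := fun ε =>
    KEY_deep P hP (fun k => f (g k)) (fun k => f (b k)) (w ε) ha hβ ε (hw ε) (hw0 ε)
  have hcom : ∀ ε : ℕ → Bool, ∀ k, w ε (k + 1) ∈ ⁅P k, P k⁆ := by
    intro ε k
    have h1 : ⁅P (k + 1), P (k + 1)⁆ ≤ ⁅P k, P k⁆ := Subgroup.commutator_mono (hP k).1 (hP k).1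
    apply h1
    rw [hw ε (k + 1)]
    refine Subgroup.mul_mem _ ?_ ?_
    · split_ifs
      · exact (hG (k + 1)).2.1
      · exact Subgroup.one_mem _
    · exact Subgroup.commutator_mem_commutator (hβ (k + 1)) (hdeep ε (k + 1) (k + 1 + 1) (by omega))
  -- two different sequences with the same value
  have hni : ¬ Function.Injective (fun ε : ℕ → Bool => w ε 0) := by
    intro hinj
    have h1 : Countable (ℕ → Bool) := hinj.countable
    obtain ⟨e, he⟩ := exists_surjective_nat (ℕ → Bool)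
    obtain ⟨m, hm⟩ := he (fun n => !(e n n))
    have h3 : e m m = !(e m m) := congrFun hm m
    cases h4 : e m m with
    | true =>
      rw [h4] at h3
      exact absurd h3 (by decide)
    | false =>
      rw [h4] at h3
      exact absurd h3 (by decide)
  obtain ⟨ε, ε', h0, hne⟩ : ∃ ε ε' : ℕ → Bool, w ε 0 = w ε' 0 ∧ ε ≠ ε' := by
    by_contra hc
    refine hni fun ε ε' h => ?_
    by_contra hne
    exact hc ⟨ε, ε', h, hne⟩
  have hex : ∃ k, ε k ≠ ε' k := Function.ne_iff.1 hne
  classical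
  let k := Nat.find hex
  have hk : ε k ≠ ε' k := Nat.find_spec hex
  have hlt : ∀ j, j < k → ε j = ε' j := fun j hj => by
    by_contra hc
    exact Nat.find_min hex hj hc
  have heq : ∀ j, j ≤ k → w ε j = w ε' j := by
    intro j
    induction j with
    | zero => exact fun _ => h0
    | succ j ih =>
      intro hj
      have h1 := ih (by omega)
      rw [hw ε j, hw ε' j, hlt j (by omega)] at h1
      exact (hG j).2.2.1 _ (hcom ε j) _ (hcom ε' j) (mul_left_cancel h1)
  have hkk := heq k le_rfl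
  rw [hw ε k, hw ε' k] at hkk
  have hPk : ∀ ε : ℕ → Bool, w ε (k + 1) ∈ P k := fun ε => hdeep ε k (k + 1) (by omega)
  cases h1 : ε k with
  | true =>
    cases h2 : ε' k with
    | true => exact hk (h1.trans h2.symm)
    | false =>
      rw [h1, h2] at hkk
      simp only [if_true, Bool.false_eq_true, if_false, one_mul] at hkk
      exact (hG k).2.2.2 _ (hPk ε) _ (hPk ε') hkk
  | false =>
    cases h2 : ε' k with
    | false => exact hk (h1.trans h2.symm)
    | true =>
      rw [h1, h2] at hkk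
      simp only [if_true, Bool.false_eq_true, if_false, one_mul] at hkk
      exact (hG k).2.2.2 _ (hPk ε') _ (hPk ε) hkk.symm

end Pool.Agent.helper92.RC
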